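import Pool.Agent.Lib.MP_5c318e_ag.Jac0

/-! A transcendence basis adapted to a set of functions. -/

set_option autoImplicit false

namespace Pool.Agent.Lib.MP_5c318e_ag.Ds

open Set

/-- a transcendence basis that contains a maximal independent part of `Q` -/
theorem exists_basis {δ K : Type} [Fintype δ] [Field K] [Algebra ℂ K] {z : δ → K}
    (hz : IsTranscendenceBasis ℂ z) (Q : Set K) : ∃ (y : δ → K) (Wd : Finset δ),
      IsTranscendenceBasis ℂ y ∧ (∀ i ∈ Wd, y i ∈ Q) ∧
      ∀ f ∈ Q, ∀ D : Derivation ℂ K K, (∀ i ∈ Wd, D (y i) = 0) → D f = 0 := by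
  classical
  have : CharZero K := charZero_of_injective_algebraMap (algebraMap ℂ K).injective
  obtain ⟨u, -, hu⟩ := exists_maximal_algebraicIndependent (R := ℂ) ∅ Q (empty_subset _)
    ((algebraicIndependent_empty_iff ℂ K).2 (algebraMap ℂ K).injective)
  obtain ⟨v, huv, hv⟩ := exists_isTranscendenceBasis_superset hu.prop.1
  obtain ⟨e⟩ := Cardinal.eq.1 (hz.cardinalMk_eq hv)
  refine ⟨fun i => e i, Finset.univ.filter fun i => (e i : K) ∈ u, hv.comp_equiv e,
    fun i hi => hu.prop.2 (Finset.mem_filter.1 hi).2, fun f hf D hD => ?_⟩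
  have h0 : ∀ a ∈ u, D a = 0 := fun a ha => by
    simpa using hD (e.symm ⟨a, huv ha⟩) (by simpa using ha)
  by_cases hfu : f ∈ u
  · exact h0 f hfu
  have ha : IsAlgebraic (Algebra.adjoin ℂ (id '' u)) f := by
    by_contra hn
    exact hfu (hu.le_of_ge (y := insert f u)
      ⟨hu.prop.1.insert hn, insert_subset hf hu.prop.2⟩ (subset_insert _ _) (mem_insert _ _))
  rw [image_id] at ha
  refine der_zero_alg D (IntermediateField.adjoin ℂ u).toSubfield (fun c hc => ?_) ?_
  · refine der_zero_closure D (S := range (algebraMap ℂ K) ∪ u) ?_ hc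
    rintro x (⟨a, rfl⟩ | hx)
    · exact D.map_algebraMap a
    · exact h0 x hx
  · exact IntermediateField.isAlgebraic_adjoin_iff.2 ha

end Pool.Agent.Lib.MP_5c318e_ag.Ds
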