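import Pool.Agent.Lib.MP_5c318e_ag.Bg.Push
import Pool.Agent.Lib.MP_5c318e_ag.G.CvRD
import Pool.Agent.Lib.MP_5c318e_ag.Z.PowSum

/-! Constant power sums along slices make the normalised norm constant along slices. -/

set_option autoImplicit false
set_option linter.unusedSectionVars false

namespace Pool.Agent.Lib.MP_5c318e_ag.Ds

open Set Filter Topology Metric

variable {ι δ : Type} [Fintype ι] [Fintype δ] {S B S1 : Type}
  [TopologicalSpace S] [MeasurableSpace S] [TopologicalSpace B] [MeasurableSpace B]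
  [TopologicalSpace S1] [MeasurableSpace S1]

/-- a function with no derivative along the slices is constant on the slices of a ball -/
theorem slice_const (D : RD ι S) (W : ι → Prop) {E : Type} [NormedAddCommGroup E]
    [NormedSpace ℝ E] {G : S → E}
    (h : ∀ x, ∀ v : ι → ℂ, (∀ i, W i → v i = 0) →
      HasDerivAt (fun s : ℝ => G (D.sec x (D.π x + s • v))) 0 0)
    {p : S} {r : ℝ} (hr : ball (D.π p) r ⊆ (D.ch p).target) {z : ι → ℂ} (hz : z ∈ ball (D.π p) r)
    (hW : ∀ i, W i → z i = D.π p i) : G (D.sec p z) = G p := by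
  set v := z - D.π p with hv
  have hm : ∀ s ∈ Icc (0 : ℝ) 1, D.π p + s • v ∈ (D.ch p).target := fun s hs =>
    hr ((convex_ball _ _).add_smul_sub_mem (mem_ball_self (pos_of_mem_ball hz)) hz hs)
  have hd : ∀ s ∈ Icc (0 : ℝ) 1, HasDerivAt (fun s : ℝ => G (D.sec p (D.π p + s • v))) 0 s := by
    intro s hs
    have h1 := h (D.sec p (D.π p + s • v)) v fun i hi => by simp [hv, hW i hi]
    rw [RD.π_sec (hm s hs)] at h1
    have h2 : HasDerivAt (fun t : ℝ => G (D.sec (D.sec p (D.π p + s • v))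
        (D.π p + s • v + (t - s) • v))) 0 s := by
      refine HasDerivAt.comp_sub_const s s (f := fun t : ℝ => G (D.sec (D.sec p (D.π p + s • v))
        (D.π p + s • v + t • v))) ?_
      rwa [sub_self]
    refine h2.congr_of_eventuallyEq ?_
    have c : ContinuousAt (fun t : ℝ => D.π p + t • v) s := by fun_prop
    filter_upwards [c.eventually (RD.germ_f G (hm s hs))] with t ht
    rw [ht]
    congr 2
    module
  have := constant_of_has_deriv_right_zero
    (fun s hs => (hd s hs).continuousAt.continuousWithinAt)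
    (fun s hs => (hd s (Ico_subset_Icc_self hs)).hasDerivWithinAt) 1 (right_mem_Icc.2 zero_le_one)
  simpa [hv, D.sec_self] using this

theorem slice_ev (D : RD ι S) (W : ι → Prop) {E : Type} [NormedAddCommGroup E]
    [NormedSpace ℝ E] {G : S → E}
    (h : ∀ x, ∀ v : ι → ℂ, (∀ i, W i → v i = 0) →
      HasDerivAt (fun s : ℝ => G (D.sec x (D.π x + s • v))) 0 0) (p : S) :
    ∀ᶠ q in 𝓝 p, (∀ i, W i → D.π q i = D.π p i) → G q = G p := by
  obtain ⟨r, r0, hr⟩ := Metric.mem_nhds_iff.1 (RD.tgt_nhds (D.mem_tgt p))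
  filter_upwards [(D.ch p).open_source.mem_nhds (D.mem_src p),
    D.cont_π.continuousAt.eventually (ball_mem_nhds _ r0)] with q h1 h2 h3
  rw [← slice_const D W h hr h2 h3, RD.sec_π h1]

theorem line_deriv {E : Type} [NormedAddCommGroup E] [NormedSpace ℝ E] {f : (ι → ℂ) → E}
    {f' : (ι → ℂ) →L[ℝ] E} {a : ι → ℂ} (hf : HasFDerivAt f f' a) (v : ι → ℂ) :
    HasDerivAt (fun s : ℝ => f (a + s • v)) (f' v) 0 := by
  have h1 : HasDerivAt (fun s : ℝ => a + s • v) v 0 := by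
    simpa using ((hasDerivAt_id (0 : ℝ)).smul_const v).const_add a
  exact HasFDerivAt.comp_hasDerivAt_of_eq (f := fun s : ℝ => a + s • v) 0 hf h1 (by simp)

variable {D : RD ι S} {DB : RD δ B} {D1 : RD δ S1} {p : S1 → B} {j : S → B}

theorem sec_comp (hj : Continuous j) (q : S) :
    ∀ᶠ z in 𝓝 (D.π q), DB.sec (j q) (DB.π (j (D.sec q z))) = j (D.sec q z) := by
  filter_upwards [(D.tendsto_sec q).eventually
    (hj.continuousAt.eventually ((DB.ch (j q)).open_source.mem_nhds (DB.mem_src _)))] with z hz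
  exact RD.sec_π hz

/-- the step from power sums to the norm -/
theorem deriv_zero (W : ι → Prop) (R : G.RMap D1 DB p) (hj : Continuous j)
    (hT : D.Hol fun y => DB.π (j y)) {Dn : B → ℝ} (hpos : ∀ b, 0 < Dn b)
    (hD : ∀ b, DifferentiableAt ℝ (fun y => Dn (DB.sec b y)) (DB.π b)) {g : S → ℂ} (hg : D.Hol g)
    (g0 : ∀ q, g q ≠ 0) {t a : ℕ} (ht : 0 < t) (ha : 2 ≤ a) {q : S} {x : S1} (hx : p x = j q)
    {u : S1 → ℂ} (hu : D1.Hol u) (u0 : u x ≠ 0) (hc : Countable (p ⁻¹' {j q}))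
    (hs : ∀ b, Summable fun y : p ⁻¹' {b} => ‖u y‖ ^ 2)
    (hd : fderiv ℝ (fun y => ‖u (D1.sec x y)‖ ^ 2 * Dn (p (D1.sec x y)) ^ t) (D1.π x) = 0)
    (hl : ∀ l, 1 ≤ l → ∀ y, ∀ v : ι → ℂ, (∀ i, W i → v i = 0) → HasDerivAt (fun s : ℝ =>
      Bg.psum p u (a * l) (j (D.sec y (D.π y + s • v))) / (g (D.sec y (D.π y + s • v)) ^ t) ^ l) 0 0)
    {v : ι → ℂ} (hv : ∀ i, W i → v i = 0) : HasDerivAt (fun s : ℝ =>
      ‖g (D.sec q (D.π q + s • v))‖ ^ 2 * Dn (j (D.sec q (D.π q + s • v))) ^ a) 0 0 := by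
  set T : (ι → ℂ) → δ → ℂ := fun z => DB.π (j (D.sec q z)) with hTd
  have T0 : T (D.π q) = D1.π x := by rw [hTd, R.eq, hx]; simp only [D.sec_self]
  have dT : DifferentiableAt ℝ T (D.π q) := (hT q).restrictScalars ℝ
  have tT : Tendsto T (𝓝 (D.π q)) (𝓝 (D1.π x)) := T0 ▸ dT.continuousAt
  have e1 : ∀ᶠ z in 𝓝 (D.π q), p (D1.sec x (T z)) = j (D.sec q z) := by
    filter_upwards [tT.eventually (R.sec x), sec_comp (D := D) (DB := DB) hj q] with z h1 h2
    rw [h1, hx, h2]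
  obtain ⟨r, r0, hr⟩ := Metric.mem_nhds_iff.1 (inter_mem (RD.tgt_nhds (D.mem_tgt q))
    (inter_mem e1 (tT (RD.tgt_nhds (D1.mem_tgt x)))))
  set X : Set (ι → ℂ) := ball (D.π q) r ∩ {z | ∀ i, W i → z i = D.π q i} with hX
  have cX : Convex ℝ X := (convex_ball _ _).inter fun z hz z' hz' s s' _ _ e i hi => by
    simp only [Pi.add_apply, Pi.smul_apply, hz i hi, hz' i hi]
    rw [← add_smul, e, one_smul]
  have cs : ContinuousOn (D.sec q) X := (D.sec_contOn q).mono fun z hz => (hr hz.1).1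
  have cT : ContinuousOn T X := (DB.cont_π.comp hj).comp_continuousOn cs
  have cv : ContinuousOn (fun z => u (D1.sec x (T z)) ^ a / g (D.sec q z) ^ t) X :=
    ((hu.cont.comp_continuousOn ((D1.sec_contOn x).comp cT fun z hz => (hr hz.1).2.2)).pow a).div
      ((hg.cont.comp_continuousOn cs).pow t) fun z _ => pow_ne_zero _ (g0 _)
  have q0 : D.π q ∈ X := ⟨mem_ball_self r0, fun _ _ => rfl⟩
  have key : ∀ z ∈ X, u (D1.sec x (T z)) ^ a / g (D.sec q z) ^ t = u x ^ a / g q ^ t := by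
    intro z hz
    have := Bg.const_of_countable cX.isPreconnected cv ((countable_range
      fun k : p ⁻¹' {j q} => u k ^ a / g q ^ t).insert 0) (fun z hz => ?_) hz q0
    · rwa [T0, D1.sec_self, D.sec_self] at this
    · exact Z.pow_mem_range_of_powsum (a := fun y : p ⁻¹' {j (D.sec q z)} => u y) ha (hs _) (hs _)
        (fun l h1 => slice_const D W (G := fun y => Bg.psum p u (a * l) (j y) / (g y ^ t) ^ l)
          (hl l h1) (fun z hz => (hr hz).1) hz.1 hz.2) ⟨D1.sec x (T z), (hr hz.1).2.1⟩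
  have d1 : DifferentiableAt ℝ (fun y => ‖u (D1.sec x y)‖ ^ 2 * Dn (p (D1.sec x y)) ^ t)
      (D1.π x) := by
    refine (((hu x).restrictScalars ℝ).norm_sq ℝ).mul (DifferentiableAt.pow ?_ t)
    have := hD (p x)
    rw [← R.eq] at this
    exact this.congr_of_eventuallyEq (R.germ Dn x)
  have d2 := d1.hasFDerivAt
  rw [hd, ← T0] at d2
  have d3 := (line_deriv (d2.comp _ dT.hasFDerivAt) v).pow a
  have dG : DifferentiableAt ℝ (fun z => ‖g (D.sec q z)‖ ^ 2 * Dn (j (D.sec q z)) ^ a) (D.π q) := by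
    refine (((hg q).restrictScalars ℝ).norm_sq ℝ).mul (DifferentiableAt.pow ?_ a)
    have := hD (j q)
    rw [← hx, ← R.eq, ← T0, hx] at this
    refine (this.comp _ dT).congr_of_eventuallyEq ?_
    filter_upwards [sec_comp (D := D) (DB := DB) hj q] with z hz
    exact (congrArg Dn hz).symm
  have d4 := line_deriv dG.hasFDerivAt v
  have cl : Tendsto (fun s : ℝ => D.π q + s • v) (𝓝 0) (𝓝 (D.π q)) :=
    Continuous.tendsto' (by fun_prop) _ _ (by simp)
  have ev : ∀ᶠ s : ℝ in 𝓝 0, D.π q + s • v ∈ X := by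
    filter_upwards [cl.eventually (ball_mem_nhds _ r0)] with s hs
    exact ⟨hs, fun i hi => by simp [hv i hi]⟩
  have d5 := d3.congr_of_eventuallyEq (f₁ := fun s : ℝ => ‖u x ^ a / g q ^ t‖ ^ 2 *
      (‖g (D.sec q (D.π q + s • v))‖ ^ 2 * Dn (j (D.sec q (D.π q + s • v))) ^ a) ^ t) (by
    filter_upwards [ev] with s hs
    have n0 := norm_ne_zero_iff.2 (g0 (D.sec q (D.π q + s • v)))
    simp only [Function.comp, Pi.pow_apply]
    rw [← key _ hs, show p (D1.sec x (T (D.π q + s • v))) = _ from (hr hs.1).2.1, norm_div,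
      norm_pow, norm_pow]
    field_simp
    ring)
  have d6 := d5.unique ((d4.pow t).const_mul _)
  have c0 : ‖u x ^ a / g q ^ t‖ ^ 2 ≠ 0 := by simp [u0, g0 q]
  have c1 : ‖g (D.sec q (D.π q + (0 : ℝ) • v))‖ ^ 2 *
      Dn (j (D.sec q (D.π q + (0 : ℝ) • v))) ^ a ≠ 0 :=
    mul_ne_zero (pow_ne_zero _ (norm_ne_zero_iff.2 (g0 _))) (pow_ne_zero _ (hpos _).ne')
  simp only [ContinuousLinearMap.zero_comp, zero_apply, mul_zero] at d6
  have := (mul_eq_zero.1 ((mul_eq_zero.1 d6.symm).resolve_left c0)).resolve_left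
    (mul_ne_zero (Nat.cast_ne_zero.2 ht.ne') (pow_ne_zero _ c1))
  rwa [this] at d4

end Pool.Agent.Lib.MP_5c318e_ag.Ds
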