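import Pool.Agent.Lib.MP_5c318e_ag.Ds.DescA
import Pool.Agent.Lib.MP_5c318e_ag.Bg.Sec

/-! The descent data exist. -/

set_option autoImplicit false

namespace Pool.Agent.Lib.MP_5c318e_ag

variable {δ K : Type} [Fintype δ] [DecidableEq δ] [Field K] [Algebra ℂ K] {B : FCht δ K} {η : K}
  {k0 : ℕ} {Dn : Pt B.O → ℝ} {ν : ℕ} {Γ : Type} [Group Γ] {c : G.Coc (Pt B.O) Γ}

theorem exists_desc (hB : Base B η k0) (L : Lin B Dn ν) (Pk : Peak B η k0 Dn c)
    (F : Prof B η k0 Dn ν c) : Nonempty (Desc F) :=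
  Ds.desc_of hB L Pk F fun _ hu hi _ hj => Peak.sec hB L Pk F hu hi hj

end Pool.Agent.Lib.MP_5c318e_ag
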