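import Pool.Agent.Lib.MP_5c318e_ag.Ds.Sub
import Pool.Agent.Lib.MP_5c318e_ag.Ds.Alg
import Pool.Agent.Lib.MP_5c318e_ag.Ds.Const

/-! The descent from the regularity of the power sums. -/

set_option autoImplicit false

namespace Pool.Agent.Lib.MP_5c318e_ag.Ds

open MeasureTheory Set Filter Topology

variable {δ K : Type} [Fintype δ] [DecidableEq δ] [Field K] [Algebra ℂ K]

section ge

variable {B : Cht δ K} {P : ValuationSubring K} {b : Bdy B P} {g g' : K} {n n' : ℤ}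

theorem ge_mul (h : b.Ge g n) (h' : b.Ge g' n') : b.Ge (g * g') (n + n') := by
  rw [Bdy.Ge, zpow_add₀ (show b.z ≠ 0 from b.cen.ad.ne), ← div_mul_div_comm]
  exact P.mul_mem _ _ h h'

theorem ge_mono (h : b.Ge g n) (hn : n' ≤ n) : b.Ge g n' := by
  obtain ⟨k, rfl⟩ := Int.le.dest hn
  have z0 : b.z ≠ 0 := b.cen.ad.ne
  have : g / b.z ^ n' = g / b.z ^ (n' + k) * b.z ^ k := by
    rw [zpow_add₀ z0, zpow_natCast]
    field_simp
  rw [Bdy.Ge, this]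
  exact P.mul_mem _ _ h (pow_mem (b.cen.le _ (b.C.z b.i0).2) k)

theorem ge_one : b.Ge 1 0 := by simp [Bdy.Ge]

end ge

variable {B : FCht δ K} {η : K} {k0 : ℕ} {Dn : Pt B.O → ℝ} {ν : ℕ} {Γ : Type} [Group Γ]
  {c : G.Coc (Pt B.O) Γ} {F : Prof B η k0 Dn ν c} {A A' a a' : ℕ} {g g' : K}

theorem sec_mul (h : F.Sec A g a) (h' : F.Sec A' g' a') : F.Sec (A + A') (g * g') (a + a') where
  mem := B.O.mul_mem h.mem h'.mem
  good := fun P h1 h2 => ge_mono (ge_mul (h.good P h1 h2) (h'.good P h1 h2))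
    (le_of_eq (by push_cast; ring))
  all := fun P => ge_mono (ge_mul (h.all P) (h'.all P)) (le_of_eq (by push_cast; ring))

theorem sec_mono (h : F.Sec A g a) (hA : A ≤ A') : F.Sec A' g a where
  mem := h.mem
  good := h.good
  all := fun P => ge_mono (h.all P) (by gcongr)

theorem sec_one : F.Sec 0 1 0 where
  mem := B.O.one_mem
  good := fun _ _ _ => ge_mono ge_one (by simp)
  all := fun _ => ge_mono ge_one (by simp)

theorem sec_prod {ι : Type} (s : Finset ι) {A a : ι → ℕ} {g : ι → K}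
    (h : ∀ i ∈ s, F.Sec (A i) (g i) (a i)) :
    F.Sec (∑ i ∈ s, A i) (∏ i ∈ s, g i) (∑ i ∈ s, a i) := by
  classical
  induction s using Finset.induction_on with
  | empty => simpa using sec_one
  | insert i s hi ih =>
    rw [Finset.sum_insert hi, Finset.sum_insert hi, Finset.prod_insert hi]
    exact sec_mul (h i (Finset.mem_insert_self i s)) (ih fun j hj => h j (Finset.mem_insert_of_mem hj))

theorem sec_pow (h : F.Sec A g a) (k : ℕ) : F.Sec (k * A) (g ^ k) (k * a) := by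
  simpa using sec_prod (Finset.range k) (A := fun _ => A) (a := fun _ => a) (g := fun _ => g)
    fun _ _ => h

/-- quotients of sections of one weight -/
def quo (F : Prof B η k0 Dn ν c) : Set K :=
  {f | ∃ (A a : ℕ) (g g' : K), F.Sec A g a ∧ F.Sec A g' a ∧ g' ≠ 0 ∧ f * g' = g}

/-- a common denominator -/
theorem exists_den {ι : Type} [Fintype ι] {w : ι → K} (hw : ∀ i, w i ∈ quo F) (h : F.Sec A g a)
    (g0 : g ≠ 0) : ∃ (A' a' : ℕ) (g' : K), a ≤ a' ∧ g' ≠ 0 ∧ F.Sec A' g' a' ∧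
      ∀ i, F.Sec A' (g' * w i) a' := by
  classical
  choose C e u v hu hv v0 ev using hw
  refine ⟨A + ∑ i, C i, a + ∑ i, e i, g * ∏ i, v i, Nat.le_add_right _ _,
    mul_ne_zero g0 (Finset.prod_ne_zero_iff.2 fun i _ => v0 i),
    sec_mul h (sec_prod _ fun i _ => hv i), fun i => ?_⟩
  have := sec_mul h (sec_mul (hu i) (sec_prod (Finset.univ.erase i) fun l _ => hv l))
  rw [Finset.add_sum_erase _ _ (Finset.mem_univ i), Finset.add_sum_erase _ _ (Finset.mem_univ i),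
    ← ev i] at this
  rw [← Finset.mul_prod_erase _ _ (Finset.mem_univ i)]
  convert this using 1
  ring

theorem line_zero {ι : Type} [Fintype ι] [DecidableEq ι] (S : Cht ι K) (W : ι → Prop) (φ : S.O)
    (h : ∀ i, ¬ W i → S.der i φ = 0) (y : Pt S.O) {v : ι → ℂ} (hv : ∀ i, W i → v i = 0) :
    HasDerivAt (fun s : ℝ => S.D.sec y (S.D.π y + s • v) φ) 0 0 := by
  have h1 := line_deriv ((S.hol φ y).hasFDerivAt.restrictScalars ℝ) v
  have h2 : S.D.fd (fun q => q φ) y v = 0 := by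
    rw [← Finset.univ_sum_single v, map_sum]
    refine Finset.sum_eq_zero fun i _ => ?_
    by_cases hi : W i
    · simp [hv i hi]
    · rw [show Pi.single i (v i) = v i • (Pi.single i 1 : ι → ℂ) by simp [← Pi.single_smul],
        map_smul, S.fd_eq, show (⟨S.der i φ, _⟩ : S.O) = 0 from Subtype.ext (h i hi), map_zero,
        smul_zero]
  exact h2 ▸ h1

theorem desc_of (hB : Base B η k0) (L : Lin B Dn ν) (Pk : Peak B η k0 Dn c)
    (F : Prof B η k0 Dn ν c) (H : ∀ u : G.Cv c → ℂ, Pk.Dh.Hol u →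
      ∫⁻ x, ENNReal.ofReal (‖u x‖ ^ 2 * Dn x.y ^ Pk.t * B.dn η k0 x.y) ∂Pk.Dh.μ < ⊤ →
      ∀ j, 2 ≤ j → ∃ (A : ℕ) (g : K), F.Sec A g (j * Pk.t) ∧
        ∀ p : Pt B.O, p.ev g = Bg.psum G.Cv.y u j p) : Nonempty (Desc F) := by
  classical
  have := Pk.cnt
  have hD : ∀ b, DifferentiableAt ℝ (fun y => Dn (B.D.sec b y)) (B.D.π b) := fun b =>
    (L.ana b).differentiableAt
  have c1 : Continuous Dn := RD.cont_of_sec (D := B.D) fun b => (hD b).continuousAt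
  have c2 : Continuous fun b : Pt B.O => b.ev η :=
    continuous_iff_continuousAt.2 fun b => Pt.Reg.continuousAt (b.reg_of_mem hB.mem)
  have c3 : Continuous (B.dn η k0) := c2.norm.rpow_const fun _ => Or.inr (by positivity)
  have cw : Continuous fun b => Dn b ^ Pk.t * B.dn η k0 b := (c1.pow _).mul c3
  have w0 : ∀ b, 0 < Dn b ^ Pk.t * B.dn η k0 b := fun b =>
    mul_pos (pow_pos (L.pos b) _) (Real.rpow_pos_of_pos (norm_pos_iff.2 (hB.ne b)) _)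
  have hs : ∀ u : G.Cv c → ℂ, Pk.Dh.Hol u →
      ∫⁻ x, ENNReal.ofReal (‖u x‖ ^ 2 * Dn x.y ^ Pk.t * B.dn η k0 x.y) ∂Pk.Dh.μ < ⊤ →
      ∀ b, Summable fun y : (G.Cv.y : G.Cv c → Pt B.O) ⁻¹' {b} => ‖u y.1‖ ^ 2 := fun u hu hi b => by
    simp_rw [mul_assoc] at hi
    exact Bg.summable_sq (D := B.D) (w := fun b => Dn b ^ Pk.t * B.dn η k0 b)
      G.Cv.isCoveringMap (fun x => (Pk.rm.eq x).symm) cw w0 hu hi b
  obtain ⟨p0, -⟩ := Pt.exists_zero (O := B.O) (I := ⊥) bot_ne_top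
  obtain ⟨u0, hu0, n0, hi0, -⟩ := Pk.ex ⟨p0, 1⟩
  obtain ⟨j0, hj0, -, nz⟩ := Z.exists_powsum_ne 
    (a := fun y : (G.Cv.y : G.Cv c → Pt B.O) ⁻¹' {p0} => u0 y.1)
    (hs u0 hu0 hi0 p0) (i := ⟨⟨p0, 1⟩, rfl⟩) n0 0
  obtain ⟨A0, g00, s0, e0⟩ := H u0 hu0 hi0 j0 hj0
  have g000 : g00 ≠ 0 := fun e => nz ((e0 p0).symm.trans (by rw [e, Pt.ev_zero]))
  obtain ⟨y, Wd, hy, hW, hQ⟩ := exists_basis B.basis (quo F)
  let e : Fin (Fintype.card {i // i ∈ Wd}) ⊕ Fin (Fintype.card {i // i ∉ Wd}) ≃ δ :=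
    ((Fintype.equivFin _).symm.sumCongr (Fintype.equivFin _).symm).trans
      (Equiv.sumCompl (· ∈ Wd))
  have e1 : ∀ i, e (Sum.inl i) ∈ Wd := fun i => ((Fintype.equivFin {i // i ∈ Wd}).symm i).2
  have e2 : ∀ i ∈ Wd, ∃ l, e (Sum.inl l) = i := fun i hi =>
    ⟨Fintype.equivFin _ ⟨i, hi⟩, by simp [e]⟩
  obtain ⟨A, a0, g0, ha, g0ne, s1, s2⟩ := exists_den (fun i => hW _ (e1 i)) s0 g000
  have ha2 : 2 ≤ a0 := hj0.trans ((Nat.le_mul_of_pos_right _ Pk.pos).trans ha)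
  obtain ⟨S, hz, hm, h, h0, hS⟩ := FCht.exists_sub B.toCht (hy.comp_equiv e) {g0⁻¹}
  have hle : B.O ≤ S.O := hS ▸ le_loc _ _
  have gi : g0⁻¹ ∈ S.O := hm _ (Finset.mem_singleton_self _)
  let I := Subalgebra.inclusion hle
  have ev : ∀ (q : Pt S.O) {φ : K} (hφ : φ ∈ B.O), q.ev φ = (q.res I).ev φ := fun q φ hφ =>
    (q.ev_coe ⟨φ, hle hφ⟩).trans ((q.res I).ev_coe ⟨φ, hφ⟩).symm
  have eg : ∀ q : Pt S.O, q.ev g0 = q ⟨g0, hle s1.mem⟩ := fun q => q.ev_coe ⟨g0, hle s1.mem⟩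
  have un : ∀ q : Pt S.O, q ⟨g0, hle s1.mem⟩ * q ⟨g0⁻¹, gi⟩ = 1 := fun q => by
    rw [← map_mul, ← map_one q]
    exact congrArg q (Subtype.ext (mul_inv_cancel₀ g0ne))
  refine ⟨⟨a0, by omega, A, _, _, S, I, fun _ => rfl, ⟨h, h0, hS⟩, g0, s1,
    fun i => by rw [hz]; exact s2 i, fun p => eg p ▸ left_ne_zero_of_mul_eq_one (un p),
    fun p => ?_⟩⟩
  have hT : S.D.Hol fun q => B.D.π (q.res I) := fun q => differentiableAt_pi.2 fun i => by
    simpa only [B.π_eq, Pt.res_apply] using S.hol (I (B.z i)) q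
  have := slice_ev S.D (fun i => ∃ l, i = Sum.inl l)
    (G := fun q => ‖q ⟨g0, hle s1.mem⟩‖ ^ 2 * Dn (q.res I) ^ a0) (fun q v hv => ?_) p
  · filter_upwards [this] with q hq h1
    rw [eg, eg]
    refine hq ?_
    rintro _ ⟨l, rfl⟩
    rw [S.π_eq, S.π_eq, h1]
  obtain ⟨u, hu, n1, hi, hd⟩ := Pk.ex ⟨q.res I, 1⟩
  refine deriv_zero _ Pk.rm (Pt.continuous_res I) hT L.pos hD (S.hol _)
    (fun q => left_ne_zero_of_mul_eq_one (un q)) Pk.pos ha2 (x := ⟨q.res I, 1⟩) rfl hu n1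
    (Bg.fib_countable G.Cv.isCoveringMap _) (hs u hu hi) hd (fun l hl r v hv => ?_) hv
  obtain ⟨A1, g1, s3, e3⟩ := H u hu hi (a0 * l) (ha2.trans (Nat.le_mul_of_pos_right _ hl))
  have s4 := sec_pow s1 (Pk.t * l)
  have hq : g1 * g0⁻¹ ^ (Pk.t * l) ∈ quo F :=
    ⟨A1 + Pk.t * l * A, a0 * l * Pk.t, g1, g0 ^ (Pk.t * l), sec_mono s3 (Nat.le_add_right _ _),
      by rw [show a0 * l * Pk.t = Pk.t * l * a0 by ring]; exact sec_mono s4 (Nat.le_add_left _ _),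
      pow_ne_zero _ g0ne, by rw [mul_assoc, ← mul_pow, inv_mul_cancel₀ g0ne, one_pow, mul_one]⟩
  have := line_zero S.toCht _ (⟨g1, hle s3.mem⟩ * ⟨g0⁻¹, gi⟩ ^ (Pk.t * l)) (fun i hi =>
    hQ _ hq (S.der i) fun k hk => by
      obtain ⟨l, rfl⟩ := e2 k hk
      rw [show y (e (Sum.inl l)) = S.z (Sum.inl l) from (hz _).symm, S.der_z,
        if_neg fun e => hi ⟨l, e⟩]) r hv
  refine this.congr_of_eventuallyEq (Eventually.of_forall fun s => ?_)
  simp only [map_mul, map_pow]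
  rw [← e3, ← ev _ s3.mem, eq_inv_of_mul_eq_one_right (un _), ← pow_mul, inv_pow, div_eq_mul_inv]
  exact congrArg (· * _) (Pt.ev_coe _ ⟨g1, hle s3.mem⟩)

end Pool.Agent.Lib.MP_5c318e_ag.Ds
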