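import Pool.Agent.Lib.MP_5c318e_ag.Z.LDefs
import Pool.Agent.Lib.MP_5c318e_ag.S.CCov
import Pool.Agent.Lib.MP_5c318e_ag.S.CEt
import Pool.Agent.Lib.MP_5c318e_ag.S.CFin

/-! A finite chart with given coordinates on a principal open part of a given chart. -/

set_option autoImplicit false

namespace Pool.Agent.Lib.MP_5c318e_ag

open Polynomial Set

variable {F : Type} [Field F] [Algebra ℂ F]

theorem Ds.le_loc (A : Subalgebra ℂ F) (h : A) : A ≤ locAway A h :=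
  fun a ha => ⟨0, ⟨a, ha⟩, by simp⟩

theorem Ds.inv_mem {A : Subalgebra ℂ F} {h : A} (h0 : h ≠ 0) : (h : F)⁻¹ ∈ locAway A h :=
  ⟨1, 1, by simp [h0]⟩

theorem Ds.loc_le {A A' : Subalgebra ℂ F} {h : A} (h0 : h ≠ 0) (hle : A ≤ A')
    (hi : (h : F)⁻¹ ∈ A') : locAway A h ≤ A' := by
  rintro φ ⟨k, a, e⟩
  have c0 : (h : F) ≠ 0 := fun e => h0 (Subtype.ext e)
  have : φ = a * (h : F)⁻¹ ^ k := by
    rw [← e]
    simp [c0]
  rw [this]
  exact A'.mul_mem (hle a.2) (A'.pow_mem hi k)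

theorem Ds.etale_loc {A : Subalgebra ℂ F} {h : A} (h0 : h ≠ 0) :
    (Subalgebra.inclusion (Ds.le_loc A h)).toRingHom.Etale := by
  let _ : Algebra A (locAway A h) := (Subalgebra.inclusion (Ds.le_loc A h)).toRingHom.toAlgebra
  have c0 : (h : F) ≠ 0 := fun e => h0 (Subtype.ext e)
  have : IsLocalization.Away h (locAway A h) := by
    refine IsLocalization.Away.mk h (IsUnit.of_mul_eq_one ⟨_, Ds.inv_mem h0⟩
      (Subtype.ext (mul_inv_cancel₀ c0))) (fun s => ?_) fun a b e => ⟨0, ?_⟩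
    · obtain ⟨k, a, e⟩ := s.2
      exact ⟨k, a, Subtype.ext e⟩
    · rw [show a = b from Subtype.ext (congrArg (fun x : locAway A h => (x : F)) e)]
  exact RingHom.etale_algebraMap.2 (Algebra.Etale.of_isLocalizationAway h)

variable {ι δ : Type} [Fintype ι] [DecidableEq ι] [Fintype δ] [DecidableEq δ]

/-- localisation of a finite chart at a polynomial in the coordinates -/
theorem Ds.exists_loc (c : Cht ι F) (h : Fini (Algebra.ofId ℂ c.O) c.z) {g : MvPolynomial ι ℂ}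
    (hg : g ≠ 0) : ∃ S : FCht ι F, (∀ i, (S.z i : F) = c.z i) ∧
      S.O = locAway c.O (MvPolynomial.aeval c.z g) := by
  set a : c.O := MvPolynomial.aeval c.z g with ha
  have hv : ∀ q : MvPolynomial ι ℂ, ((MvPolynomial.aeval c.z q : c.O) : F) =
      MvPolynomial.aeval (fun i => (c.z i : F)) q := fun q =>
    MvPolynomial.comp_aeval_apply (f := c.z) c.O.val q
  have a0 : a ≠ 0 := fun e => hg (c.basis.1 (by rw [← hv, ← ha, e, map_zero]; rfl))
  let I := Subalgebra.inclusion (Ds.le_loc c.O a)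
  have hI : (MvPolynomial.aeval fun i => I (c.z i) : MvPolynomial ι ℂ →ₐ[ℂ] _) =
      I.comp (MvPolynomial.aeval c.z) := (MvPolynomial.comp_aeval _ _).symm
  obtain ⟨S, e, hz⟩ := Cht.of_etale (locAway c.O a) (fun i => I (c.z i)) c.basis
    (fun φ => by
      obtain ⟨u, v, h1, h2⟩ := c.frac φ
      exact ⟨I u, I v,
        fun e => h1 (Subtype.ext (congrArg (fun x : locAway c.O a => (x : F)) e)), h2⟩)
    (by
      rw [hI]
      exact RingHom.Etale.stableUnderComposition _ _ c.et (Ds.etale_loc a0))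
  let J : c.O →ₐ[ℂ] S.O := Subalgebra.inclusion (e ▸ Ds.le_loc c.O a)
  have hJ : ∀ i, S.z i = J (c.z i) := fun i => Subtype.ext (hz i)
  have h1 : (J : c.O →+* S.O).comp
      (MvPolynomial.eval₂Hom (Algebra.ofId ℂ c.O : ℂ →+* c.O) c.z) =
      MvPolynomial.eval₂Hom (Algebra.ofId ℂ S.O : ℂ →+* S.O) S.z :=
    MvPolynomial.ringHom_ext (fun r => by simp) fun i => by simp [hJ]
  have h2 : ∀ q, MvPolynomial.eval₂ (Algebra.ofId ℂ S.O : ℂ →+* S.O) S.z q =
      J (MvPolynomial.eval₂ (Algebra.ofId ℂ c.O : ℂ →+* c.O) c.z q) := fun q =>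
    (DFunLike.congr_fun h1 q).symm
  have h3 : ∀ P : (MvPolynomial ι ℂ)[X],
      P.eval₂ (MvPolynomial.eval₂Hom (Algebra.ofId ℂ S.O : ℂ →+* S.O) S.z) (J h.w) =
      J (P.eval₂ (MvPolynomial.eval₂Hom (Algebra.ofId ℂ c.O : ℂ →+* c.O) c.z) h.w) := fun P => by
    rw [← h1]
    exact (hom_eval₂ P _ (J : c.O →+* S.O) h.w).symm
  have h4 : MvPolynomial.eval₂ (Algebra.ofId ℂ c.O : ℂ →+* c.O) c.z g = a := rfl
  have ua : IsUnit (J a) := IsUnit.of_mul_eq_one ⟨(a : F)⁻¹, e.ge (Ds.inv_mem a0)⟩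
    (Subtype.ext (mul_inv_cancel₀ fun e => a0 (Subtype.ext e)))
  refine ⟨⟨S, h.Δ * g, h.f, J h.w, h.monic, ?_, ?_, fun φ => ?_, mul_ne_zero h.ne hg,
    fun b x s n1 n2 => ?_, ?_⟩, hz, e⟩
  · rw [MvPolynomial.eval₂_mul, h2, h2, h4]
    exact (h.unit.map J).mul ua
  · rw [h3, h.root, map_zero]
  · obtain ⟨k, u, hu⟩ : (φ : F) ∈ locAway c.O a := e ▸ φ.2
    obtain ⟨P, l, hP⟩ := h.gen u
    have hu' : φ * J a ^ k = J u := Subtype.ext hu
    refine ⟨P * C (h.Δ ^ k * g ^ l), k + l, ?_⟩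
    rw [eval₂_mul, eval₂_C, h3, ← hP, MvPolynomial.coe_eval₂Hom, MvPolynomial.eval₂_mul,
      MvPolynomial.eval₂_mul, MvPolynomial.eval₂_pow, MvPolynomial.eval₂_pow, h2, h2, h4, map_mul,
      map_pow, ← hu']
    ring
  · rw [MvPolynomial.eval₂_mul] at n1
    obtain ⟨p, p1, p2, p3⟩ := h.ex b x s (left_ne_zero_of_mul n1) n2
    have pa : p a ≠ 0 := by
      rw [← h4, p.apply_mv, p1, MvPolynomial.eval_map]
      simpa only [p2] using right_ne_zero_of_mul n1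
    have hle : S.O ≤ p.loc := e ▸ InLoc.le (A' := locAway c.O a) (fun _ hφ => hφ) pa
    refine ⟨p.under hle, Subsingleton.elim (α := ℂ →ₐ[ℂ] ℂ) _ _, fun i => ?_, ?_⟩
    · rw [hJ, ← p2]
      exact p.ev_coe _
    · rw [← p3]
      exact p.ev_coe _
  · obtain ⟨A, B, j, e⟩ := h.cert
    exact ⟨A * C (g ^ j), B * C (g ^ j), j, by rw [mul_pow, C_mul, ← e]; ring⟩

/-- a finite chart with the coordinates `y` on a principal open part of `B` -/
theorem FCht.exists_sub (B : Cht δ F) {y : ι → F} (hy : IsTranscendenceBasis ℂ y) (s : Finset F) :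
    ∃ S : FCht ι F, (∀ i, (S.z i : F) = y i) ∧ (∀ a ∈ s, a ∈ S.O) ∧
      ∃ h : B.O, h ≠ 0 ∧ S.O = locAway B.O h := by
  classical
  obtain ⟨t, ht⟩ := (Subalgebra.fg_iff_finiteType B.O).2 B.ft
  obtain ⟨O, z, hz, hs, fr, ⟨fin⟩, et⟩ := exists_fini_abs B.fg hy (s ∪ t)
  obtain ⟨c, rfl, hc⟩ := Cht.of_etale O z (by simpa only [hz] using hy) fr et
  obtain rfl : c.z = z := funext fun i => Subtype.ext (hc i)
  have hle : B.O ≤ c.O := by
    rw [← ht, Algebra.adjoin_le_iff]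
    exact fun a ha => hs a (Finset.mem_union_right _ ha)
  obtain ⟨h1, n1, H⟩ := exists_inLoc (A' := c.O) B.frac
  obtain ⟨g, u, hg, e⟩ := c.exists_dvd (h := ⟨h1, hle h1.2⟩)
    fun e => n1 (Subtype.ext (congrArg (fun x : c.O => (x : F)) e))
  obtain ⟨S, hS, eS⟩ := Ds.exists_loc c fin hg
  set a : c.O := MvPolynomial.aeval c.z g with ha
  have a0 : a ≠ 0 := fun e0 => by
    have := c.basis.1 (a₁ := g) (a₂ := 0) (by
      rw [map_zero]
      exact (MvPolynomial.comp_aeval_apply (f := c.z) c.O.val g).symm.trans (by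
        rw [← ha, e0, map_zero]))
    exact hg this
  obtain ⟨k, b, eb⟩ := H a a.2
  have c1 : (h1 : F) ≠ 0 := fun e => n1 (Subtype.ext e)
  have c2 : (a : F) ≠ 0 := fun e => a0 (Subtype.ext e)
  push_cast at eb
  have c3 : (b : F) ≠ 0 := eb ▸ mul_ne_zero c2 (pow_ne_zero _ c1)
  have n2 : h1 * b ≠ 0 := mul_ne_zero n1 fun e => c3 (by simp [e])
  have e' : (h1 : F) * u = a := congrArg Subtype.val e
  refine ⟨S, fun i => (hS i).trans (hz i), fun x hx => eS ▸ Ds.le_loc _ _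
    (hs x (Finset.mem_union_left _ hx)), h1 * b, n2, eS.trans (le_antisymm ?_ ?_)⟩
  · refine Ds.loc_le a0 (H.mul b) ⟨1, h1 ^ (k + 1), ?_⟩
    push_cast
    rw [← eb]
    field_simp
    ring
  · refine Ds.loc_le n2 (hle.trans (Ds.le_loc _ _)) ⟨k + 2, u ^ (k + 1), ?_⟩
    push_cast
    rw [← eb, ← e']
    have : (u : F) ≠ 0 := right_ne_zero_of_mul (e' ▸ c2)
    field_simp
    ring

end Pool.Agent.Lib.MP_5c318e_ag
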